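import Pool.Agent.Results.MP_ac85ec_co.FourLevels

/-!
# Project GO: the number of graded orders with `k ≥ 5` grade levels (MP_ac85ec_co, question Q2, full answer)

THEOREM. For each `k ≥ 5` there are `C`, `n₀` with `|log₂ a_k(n) - (n²/4 + (7 - k)/2 · n)| ≤ C log n` for `n ≥ n₀`.

Packages: deliver `theorem rng : S_RNG`, `theorem inj : S_INJ`, ... in your own directory
`Pool/Agent/P8H(you)/GO/Rng.lean` etc.; earlier statements may be assumed as hypotheses where this is said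
(`theorem cnt : S_RNG → S_INJ → S_CNT`). Definitions of orders: `FourLevels` (`IsOrder`, `Lt`, `Covers`, `IsGrade`,
`GradedWithLevels`, `a`, `ord`).
-/

set_option autoImplicit false
set_option linter.all false

namespace Pool.Agent.P8H99.GO

open Finset
open Pool.Agent.Results.MP_ac85ec_co.FourLevels (IsOrder Lt Covers IsGrade GradedWithLevels a ord)

/-! ## Definitions -/

/-- The multinomial coefficient of the list. -/
def mult : List ℕ → ℕ
  | [] => 1
  | x :: l => (x + l.sum).choose x * mult l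

/-- The sum of the products of neighbours. -/
def path : List ℕ → ℕ
  | [] => 0
  | [_] => 0
  | x :: y :: l => x * y + path (y :: l)

/-- the number of pairs `(p, q)` with `g q = g p + 1` -/
def wt {n k : ℕ} (g : Fin n → Fin k) : ℕ :=
  ((univ : Finset (Fin n × Fin n)).filter (fun q => (g q.2 : ℕ) = g q.1 + 1)).card

/-- The bound for the level sizes. -/
def Bd (k : ℕ) : Prop := ∃ C N : ℕ, ∀ s : List ℕ, s.length = k → (∀ x ∈ s, 1 ≤ x) → N ≤ s.sum →
  (mult s : ℝ) * 2 ^ path s ≤ (s.sum : ℝ) ^ C * (2 : ℝ) ^ ((s.sum : ℝ) ^ 2 / 4 + (7 - (k : ℝ)) / 2 * s.sum)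

/-- One of the first two entries is larger than `T`. -/
def Blk (T : ℕ) (s : List ℕ) : Prop := ∃ (x y : ℕ) (l : List ℕ), s = x :: y :: l ∧ (T < x ∨ T < y)

/-! ## Counting from above -/

/-- (RNG, 80 lines) The grade levels are `1, ..., k`. Proof: if `r x y` then every integer between `g x` and `g y` is a value of
`g` (induction on the number of elements strictly between `x` and `y`; if there is none and `x ≠ y`, `y` covers `x`). By
induction on `Relation.EqvGen r p b` the same holds for all `p`, `b` in one component. As `g b = 1` for some `b`, all of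
`[1, g p]` are values, and all values are `≥ 1`; the range is finite with `k` elements, so it is `[1, k]`. -/
def S_RNG : Prop := ∀ (k n : ℕ) (r : Fin n → Fin n → Prop) (g : Fin n → ℕ), IsOrder r → IsGrade r g →
  (Set.range g).ncard = k → Set.range g = Set.Icc 1 k

/-- (INJ, 50 lines) A finite order is determined by its cover relation (induction on the number of elements strictly
between). -/
def S_INJ : Prop := ∀ (n : ℕ) (r r' : Fin n → Fin n → Prop), IsOrder r → IsOrder r' →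
  (∀ p q, Covers r p q ↔ Covers r' p q) → r = r'

/-- (CNT, 100 lines; `S_RNG → S_INJ → S_CNT`) Proof: to an order `r` with grade map `g` assign the map `p ↦ g p - 1` in `Fin k`
(onto, by `S_RNG`) and the set of the pairs `(p, q)`, `q` covers `p`, a subset of the `wt` pairs. This is injective by
`S_INJ`. (`a k n = Nat.card` of a subtype; the target is the sigma finset of the power sets.) -/
def S_CNT : Prop := ∀ k n : ℕ, a k n ≤ ∑ g ∈ (univ : Finset (Fin n → Fin k)).filter Function.Surjective, 2 ^ wt g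

/-- (FIB, 80 lines) The number of maps with given sizes of the fibres. Proof: induction on `k`; the fibre over `0` is one of
`(card α).choose (s 0)` sets, and the rest is a map from the complement (a type) to `Fin k` (subtract one). -/
def S_FIB : Prop := ∀ (k : ℕ) (α : Type) [Fintype α] [DecidableEq α] (s : Fin k → ℕ),
  ((univ : Finset (α → Fin k)).filter (fun g => ∀ i, (univ.filter (fun p => g p = i)).card = s i)).card ≤
    mult (List.ofFn s)

/-- (PTH, 60 lines) `wt g` is the sum of the products of the sizes of neighbouring fibres. -/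
def S_PTH : Prop := ∀ (k n : ℕ) (g : Fin n → Fin k),
  wt g = path (List.ofFn fun i => ((univ : Finset (Fin n)).filter (fun p => g p = i)).card)

/-- (GRP, 70 lines; `S_FIB → S_PTH → S_GRP`) Proof: group the surjective `g` by the sizes `s : Fin k → ℕ` of the fibres, at most
`(n + 1)^k` possibilities (all in `Fintype.piFinset fun _ => range (n + 1)`), all `≥ 1`, with sum `n`. -/
def S_GRP : Prop := ∀ (k n : ℕ) (B : ℝ), 0 ≤ B →
  (∀ s : List ℕ, s.length = k → (∀ x ∈ s, 1 ≤ x) → s.sum = n → (mult s : ℝ) * 2 ^ path s ≤ B) →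
  ((∑ g ∈ (univ : Finset (Fin n → Fin k)).filter Function.Surjective, 2 ^ wt g : ℕ) : ℝ) ≤ ((n : ℝ) + 1) ^ k * B

/-! ## The sizes of the levels -/

/-- (MUL, 80 lines) (1) induction; (2) from (1), `(s.map Nat.factorial).prod` is invariant under permutations; (3)
`path` of the reversed list (first `path (s ++ [x, y]) = path (s ++ [x]) + x * y`); (4) `mult s ≤ (length)^(sum)`: induction with
`(x + m).choose x * L ^ m ≤ (1 + L) ^ (x + m)` (one term of the binomial formula). -/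
def S_MUL : Prop :=
  (∀ s : List ℕ, mult s * (s.map Nat.factorial).prod = s.sum.factorial) ∧
  (∀ s : List ℕ, mult s.reverse = mult s) ∧
  (∀ s : List ℕ, path s.reverse = path s) ∧
  ∀ s : List ℕ, mult s ≤ s.length ^ s.sum

/-- (BLK, 110 lines) Length `7`, `s = [a, b, c, d, e, f, g]`, `n` the sum, `O = a + c + e + g`, `E = b + d + f`:
`path s = E O - M = n²/4 - (E - O)²/4 - M` with `M = a d + a f + c f + e b + g b + g d`; claim `M + (E - O)²/4 ≥ T n / 16`. If
`E < n/4` or `O < n/4` then `(E - O)²/4 ≥ n²/16`. Otherwise: if `a, g > T` then `M ≥ a (d + f) + g (b + d) ≥ T E`; if `b, f > T`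
then `M ≥ b (e + g) + f (a + c) ≥ T O`; if `a, f > T` and `M < T n / 16` then `a (d + f) ≤ M` gives `d + f < n/16`, so `b > 3n/16`,
and `f (a + c) ≤ M` gives `a + c < n/16`, so `e + g > 3n/16`, and `M ≥ b (e + g) > 9 n²/256 ≥ T n / 16`, a contradiction; the case
`b, g > T` is symmetric. Length `≥ 8`, `s = a :: b :: c :: l`: fold, `s' = b :: (a + c) :: l` has the same sum, `path s ≤ path s'`
and again the two properties `Blk`; induction. -/
def S_BLK : Prop := ∀ (T : ℕ) (s : List ℕ), 7 ≤ s.length → Blk T s → Blk T s.reverse → 2 * T ≤ s.sum →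
  (path s : ℝ) ≤ (s.sum : ℝ) ^ 2 / 4 - T * s.sum / 16

/-- (SEV, 60 lines; `S_MUL → S_BLK → S_SEV`) Proof: `mult s ≤ k^n ≤ 2^(k n)`, `T = Nat.log 2 n ≥ 24 k` for `n ≥ 2^(24 k)`, so
`k n - T n / 16 ≤ (7 - k) n / 2`. -/
def S_SEV : Prop := ∀ k : ℕ, 7 ≤ k → ∃ N : ℕ, ∀ s : List ℕ, s.length = k → N ≤ s.sum →
  Blk (Nat.log 2 s.sum) s → Blk (Nat.log 2 s.sum) s.reverse →
  (mult s : ℝ) * 2 ^ path s ≤ (2 : ℝ) ^ ((s.sum : ℝ) ^ 2 / 4 + (7 - (k : ℝ)) / 2 * s.sum)

/-- (SIX, 160 lines; `S_MUL → S_SIX`) `T = Nat.log 2 n`, `s = [a, b, c, d, e, f]`, `O = a + c + e`, `E = b + d + f`,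
`path = E O - M = n²/4 - (E - O)²/4 - M`, `M = a d + a f + c f + b e`; `mult ≤ 6^n ≤ 2^(2.6 n)` (`6^5 < 2^13`).
(α) `E < n/4` or `O < n/4`: `(E - O)²/4 ≥ n²/16`, done. (β) Otherwise, if `a, e > T`: `M ≥ a (d + f) + b e ≥ T E ≥ T n/4`; if
`b, f > T`: `M ≥ b e + f (a + c) ≥ T O`; if `a, f > T`: `M < T n/16` would give `d + f < n/16`, `b > 3n/16`, `a + c < n/16`,
`e > 3n/16`, `b e > 9n²/256`: so `M ≥ T n/16`. In all three cases done for `T ≥ 34`. (γ) There remains `a ≤ T`, `f ≤ T`, `b > T`,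
`e > T`. If `b e ≥ 3 n`, done. Otherwise `b, e < 3n/T`, `M ≥ a d + c f ≥ c + d ≥ n - 2T - 6n/T`, and
`mult = C(n,E) C(O,a) C(O-a,e) C(E,f) C(E-f,b) ≤ 2^n n^(2T) C(n,e) C(n,b)`, `C(n,j) ≤ (1 + 1/64)^n 64^j ≤ 2^(n/32 + 6 j)`, so the
exponent is at most `n²/4 + n + 2T(T+1) + n/16 + 36n/T - (n - 2T - 6n/T) ≤ n²/4 + n/2` for `T ≥ 420` and `n` large. -/
def S_SIX : Prop := ∃ N : ℕ, ∀ s : List ℕ, s.length = 6 → (∀ x ∈ s, 1 ≤ x) → N ≤ s.sum →
  Blk (Nat.log 2 s.sum) s → Blk (Nat.log 2 s.sum) s.reverse →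
  (mult s : ℝ) * 2 ^ path s ≤ (2 : ℝ) ^ ((s.sum : ℝ) ^ 2 / 4 + (7 - (6 : ℝ)) / 2 * s.sum)

/-- (REM, 100 lines) Removal of a small end. Proof: `n = x + n'`, `T = Nat.log 2 n`. The left side is
`C(n,x) 2^(x y) F(y :: l) ≤ n^x 2^(x y) n^C' 2^(n'²/4 + (7 - k)/2 n')`, and
`n'²/4 + (7-k)/2 n' = n²/4 + (6-k)/2 n + (1 - x) n/2 + x²/4 + (k-7) x/2`. For `x = 1` use `2^y ≤ n`: `C = C' + 2 + k`. For `x ≥ 2`:
`n^x ≤ 2^((T+1)x)`, `x y ≤ T x`, `x²/4 ≤ T x`, and `x (3T + 1 + k) ≤ (x - 1) n/2` for large `n`. (`n' ≥ n/2` is large.) -/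
def S_REM : Prop := ∀ k : ℕ, 5 ≤ k → Bd k → ∃ C N : ℕ, ∀ (x y : ℕ) (l : List ℕ), (x :: y :: l).length = k + 1 →
  (∀ z ∈ x :: y :: l, 1 ≤ z) → N ≤ (x :: y :: l).sum → x ≤ Nat.log 2 (x :: y :: l).sum →
  y ≤ Nat.log 2 (x :: y :: l).sum →
  (mult (x :: y :: l) : ℝ) * 2 ^ path (x :: y :: l) ≤ ((x :: y :: l).sum : ℝ) ^ C *
    (2 : ℝ) ^ (((x :: y :: l).sum : ℝ) ^ 2 / 4 + (7 - ((k + 1 : ℕ) : ℝ)) / 2 * ((x :: y :: l).sum : ℝ))

/-- (KEY, 100 lines) `n = E + O`, `D = O - E`. (i) `2^x ≥ O`: `(1 + 2^(-x))^O ≤ exp(O 2^(-x)) ≤ 3`, `C(E,x) ≤ 2^E`.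
(ii) `2^x < O`, `4 O ≤ n`: `D²/4 ≥ n²/16 ≥ O`, `(1 + 2^(-x))^O ≤ 2^O`. (iii) `2^x < O`, `4 O > n`: `x ≤ Nat.log 2 n`,
`C(E,x) ≤ n^x`, `(1 + 2^(-x))^O ≤ (3/2)^O = (3/4)^O 2^O`, `2^O ≤ 2 · 2^(E + D²/4)` (`D ≤ D²/4 + 1`), and
`n^(log₂ n) (3/4)^(n/4) ≤ 1` for large `n`. -/
def S_KEY : Prop := ∃ C N : ℕ, ∀ E O x : ℕ, 1 ≤ x → N ≤ E + O →
  (E.choose x : ℝ) * (1 + (1 / 2 : ℝ) ^ x) ^ O ≤
    ((E + O : ℕ) : ℝ) ^ C * (2 : ℝ) ^ ((E : ℝ) + ((O : ℝ) - E) ^ 2 / 4)

/-- (FIVE, 150 lines; `S_MUL → S_KEY → S_FIVE`) `s = [p, x, m, y, q]`, `E = x + y`, `O = p + m + q`, `D = O - E`. By `S_MUL` (1)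
`mult s = C(n,E) C(E,x) C(O,p) C(O-p,q)`, `C(n,E) ≤ 2^n`; `path s = E O - p y - q x = n²/4 - D²/4 - p y - q x`. So we need
`C(E,x) C(O,p) C(O-p,q) ≤ n^C 2^(p y + q x + D²/4)`. By symmetry (`(p,x,y,q) ↔ (q,y,x,p)`) let `p ≤ q`. `p ≥ 3`: the left side
is `≤ 2^E 3^O`, `3^O ≤ 2^(1.6 O)` (`3^5 < 2^8`), `p y + q x ≥ 3 E`, `1.6 D ≤ D²/4 + 2.56`. `p = 2`: `≤ 2^E n² 2^O`, `D ≤ D²/4 + 1`.
`p = 1`: `C(O-1,q) ≤ n C(O-1,q-1)`, `C(O-1,q-1) 2^(-(q-1)x) ≤ (1 + 2^(-x))^O` (one term of the binomial formula),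
`y + q x = E + (q - 1) x`, and `S_KEY`. -/
def S_FIVE : Prop := Bd 5

/-! ## Counting from below -/

/-- A connected structure of `k` levels with covers `c` and bottom `b`. -/
def Str (k : ℕ) {n : ℕ} (l : Fin n → ℕ) (c : Fin n → Finset (Fin n)) (b : Fin n) : Prop :=
  (∀ p, ∀ x ∈ c p, l x + 1 = l p) ∧ l b = 0 ∧ (∀ p, Relation.EqvGen (fun x y => x ∈ c y) p b) ∧
    Set.range l = Set.Iio k

/-- (GRD, 100 lines) Adapt the lemmas `ord_cases`, ..., `graded_ord` of `FourLevels` (they use the second half of `Valid`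
only for the connection with the bottom). Grade map `l p + 1`. -/
def S_GRD : Prop := ∀ (k n : ℕ) (l : Fin n → ℕ) (c : Fin n → Finset (Fin n)) (b : Fin n), Str k l c b →
  GradedWithLevels k (ord c)

/-- (UNQ, 70 lines) `x ∈ c y` if and only if `y` covers `x` in `ord c` (compare `mem_of_ord` and `cover_eq` in `FourLevels`),
so `c = c'`; then `l = l'` by induction along `EqvGen` (both vanish at `b`, both grow by one along the edges). -/
def S_UNQ : Prop := ∀ (k n : ℕ) (l l' : Fin n → ℕ) (c c' : Fin n → Finset (Fin n)) (b : Fin n), Str k l c b →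
  Str k l' c' b → ord c = ord c' → l = l' ∧ c = c'

/-- the singleton of the element with the number `i` -/
def spe (n i : ℕ) : Finset (Fin n) := univ.filter (fun q : Fin n => (q : ℕ) = i)

/-- the elements which are not special -/
def W (k n : ℕ) : Finset (Fin n) := univ.filter (fun p : Fin n => k - 2 ≤ (p : ℕ))

/-- The levels: `0` and `1` are special elements of levels `0` and `1`; the special elements `2, ..., k - 3` are a chain of
levels `4, ..., k - 1`; `X` has level `1`, `M` level `2`, the rest level `3`. -/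
def lev (k : ℕ) {n : ℕ} (M X : Finset (Fin n)) (p : Fin n) : ℕ :=
  if (p : ℕ) = 0 then 0 else if (p : ℕ) = 1 then 1 else if (p : ℕ) < k - 2 then p + 2 else
    if p ∈ X then 1 else if p ∈ M then 2 else 3

/-- The allowed sets of lower covers of `p`. -/
def cov (k : ℕ) {n : ℕ} (M X : Finset (Fin n)) (p : Fin n) : Finset (Finset (Fin n)) :=
  if (p : ℕ) = 0 then {∅} else if (p : ℕ) = 1 then {spe n 0} else
    if (p : ℕ) = 2 then (W k n \ (M ∪ X)).powerset.erase ∅ else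
    if (p : ℕ) < k - 2 then {spe n (p - 1)} else
    if p ∈ X then {∅, spe n 0} else
    if p ∈ M then (X ∪ spe n 1).powerset.erase ∅ else M.powerset.erase ∅

/-- Every element of `X` has a common upper cover in `M` with the special element `1`. -/
def Lnk {n : ℕ} (M X : Finset (Fin n)) (c : Fin n → Finset (Fin n)) : Prop :=
  ∀ x ∈ X, ∃ q ∈ M, x ∈ c q ∧ ∃ u ∈ c q, (u : ℕ) = 1

/-- (STR, 130 lines) Direct verification: `1` is above `0`; `x ∈ X` is connected with `1` through `q` of `Lnk`; the elements of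
`M` cover an element of `X ∪ {1}`; the others of `W` cover an element of `M`; `2` covers an element of the rest; the other special
elements cover their predecessor. All values `0, ..., k - 1` occur. -/
def S_STR : Prop := ∀ (k n : ℕ) (h0 : 0 < n) (M X : Finset (Fin n)) (c : Fin n → Finset (Fin n)), 5 ≤ k → k < n →
  M ⊆ W k n → X ⊆ W k n → Disjoint M X → M.Nonempty → (W k n \ (M ∪ X)).Nonempty → (∀ p, c p ∈ cov k M X p) →
  Lnk M X c → Str k (lev k M X) c ⟨0, h0⟩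

open Classical in
/-- (CRD, 130 lines) Proof: the number of the `c` in `Fintype.piFinset (cov k M X)` is `∏_p (cov k M X p).card =
2^t (2^(t+1) - 1)^m (2^m - 1)^y (2^y - 1)`. For `x ∈ X` the `c` without common upper cover of `x` and `1` are those with
`c q` in the sets of `cov k M X q` not containing both `x` and `1`, for `q ∈ M`: at most `2^(t+1) - 2^(t-1) = 3 · 2^(t-1)` sets
for each `q`. Subtract the sum over `x ∈ X`. -/
def S_CRD : Prop := ∀ (k n : ℕ) (M X : Finset (Fin n)), 5 ≤ k → k < n → M ⊆ W k n → X ⊆ W k n → Disjoint M X →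
  X.Nonempty →
  2 ^ X.card * ((2 ^ (X.card + 1) - 1) ^ M.card - X.card * (3 * 2 ^ (X.card - 1)) ^ M.card) *
    (2 ^ M.card - 1) ^ (W k n \ (M ∪ X)).card * (2 ^ (W k n \ (M ∪ X)).card - 1) ≤
    ((Fintype.piFinset (cov k M X)).filter (fun c => Lnk M X c)).card

/-- the number of orders of the family -/
def fam (w m t : ℕ) : ℕ := w.choose m * ((w - m).choose t * (2 ^ t * ((2 ^ (t + 1) - 1) ^ m - t * (3 * 2 ^ (t - 1)) ^ m) *
  (2 ^ m - 1) ^ (w - m - t) * (2 ^ (w - m - t) - 1)))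

/-- (LCT, 100 lines; `S_GRD → S_UNQ → S_STR → S_CRD → S_LCT`) Proof: the map `(M, X, c) ↦ ord c` on the `M ⊆ W` with `m` elements,
`X ⊆ W \ M` with `t` elements (`w = (W k n).card = n - (k - 2)`), `c` as in `S_CRD`, is injective (by `S_UNQ` the levels agree, so
`M` and `X`), with values in the orders counted by `a k n`. -/
def S_LCT : Prop := ∀ k n m t : ℕ, 5 ≤ k → k < n → 1 ≤ m → 1 ≤ t → m + t < n - (k - 2) →
  fam (n - (k - 2)) m t ≤ a k n

/-- (LNM, 130 lines) Numbers: `w = n - (k - 2)`, `m = w / 2`, `t = (w - m) / 2`, `y = w - m - t`. `C(w, w/2) ≥ 2^w / (w + 1)` and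
`C(w - m, t) ≥ 2^(w-m) / (w - m + 1)`; for large `n`: `(2^(t+1) - 1)^m ≥ (3/4) 2^((t+1) m)`, `t (3 · 2^(t-1))^m = t (3/4)^m 2^((t+1) m)
≤ (1/4) 2^((t+1) m)`, `(2^m - 1)^y ≥ (1/2) 2^(m y)`, `2^y - 1 ≥ (1/2) 2^y` (Bernoulli). The exponent is
`w + (w - m) + t + (t + 1) m + m y + y = 2 w + (w - m) + m (w - m) ≥ w²/4 + 5 w/2 - 1/4`, and
`w²/4 + 5 w/2 = n²/4 + (7 - k)/2 n + const`. -/
def S_LNM : Prop := ∀ k : ℕ, 5 ≤ k → ∃ C N : ℕ, ∀ n : ℕ, N ≤ n →
  (2 : ℝ) ^ ((n : ℝ) ^ 2 / 4 + (7 - (k : ℝ)) / 2 * n) ≤ (n : ℝ) ^ C *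
    (fam (n - (k - 2)) ((n - (k - 2)) / 2) (((n - (k - 2)) - (n - (k - 2)) / 2) / 2) : ℝ)

end Pool.Agent.P8H99.GO
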