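import Pool.Agent.P8H99.GO.Ind

/-!
# Project GO: the final theorem from all the packages
-/

set_option autoImplicit false

namespace Pool.Agent.P8H99.GO

open Pool.Agent.Results.MP_ac85ec_co.FourLevels (a)

theorem final (rng : S_RNG) (inj : S_INJ) (cnt : S_RNG → S_INJ → S_CNT) (fib : S_FIB) (pth : S_PTH)
    (grp : S_FIB → S_PTH → S_GRP) (mul : S_MUL) (blk : S_BLK) (sev : S_MUL → S_BLK → S_SEV) (six : S_MUL → S_SIX)
    (rem : S_REM) (key : S_KEY) (five : S_MUL → S_KEY → S_FIVE) (grd : S_GRD) (unq : S_UNQ) (str : S_STR)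
    (crd : S_CRD) (lct : S_GRD → S_UNQ → S_STR → S_CRD → S_LCT) (lnm : S_LNM) (k : ℕ) (hk : 5 ≤ k) :
    ∃ (C : ℝ) (n₀ : ℕ), ∀ n : ℕ, n₀ ≤ n →
      |Real.logb 2 (a k n) - ((n : ℝ) ^ 2 / 4 + (1 - ((k : ℝ) - 5) / 2) * n)| ≤ C * Real.log n :=
  main k (upper mul (five mul key) (six mul) (sev mul blk) rem (cnt rng inj) (grp fib pth) k hk)
    (lower (lct grd unq str crd) lnm k hk)

end Pool.Agent.P8H99.GO
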