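import Pool.Agent.P8H99.GO.Stm

/-!
# Project GO: the induction on the number of levels, and the two bounds
-/

set_option autoImplicit false

namespace Pool.Agent.P8H99.GO

open Finset
open Pool.Agent.Results.MP_ac85ec_co.FourLevels (a)

theorem bd_all (hM : S_MUL) (h5 : S_FIVE) (h6 : S_SIX) (h7 : S_SEV) (hR : S_REM) : ∀ k, 5 ≤ k → Bd k := by
  obtain ⟨-, hmr, hpr, -⟩ := hM
  intro k hk
  induction k, hk using Nat.le_induction with
  | base => exact h5
  | succ k hk ih =>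
    obtain ⟨C1, N1, h1⟩ := hR k hk ih
    obtain ⟨N2, h2⟩ : ∃ N : ℕ, ∀ s : List ℕ, s.length = k + 1 → (∀ x ∈ s, 1 ≤ x) → N ≤ s.sum →
        Blk (Nat.log 2 s.sum) s → Blk (Nat.log 2 s.sum) s.reverse →
        (mult s : ℝ) * 2 ^ path s ≤ (2 : ℝ) ^ ((s.sum : ℝ) ^ 2 / 4 + (7 - ((k + 1 : ℕ) : ℝ)) / 2 * s.sum) := by
      rcases Nat.eq_or_lt_of_le hk with h | h
      · subst h
        obtain ⟨N, hN⟩ := h6
        refine ⟨N, fun s hs hp hn hb hb' => ?_⟩
        have := hN s hs hp hn hb hb'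
        refine this.trans (le_of_eq ?_)
        norm_num
      · obtain ⟨N, hN⟩ := h7 (k + 1) (by omega)
        exact ⟨N, fun s hs _ hn hb hb' => hN s hs hn hb hb'⟩
    refine ⟨C1, max N1 N2, fun s hs hp hn => ?_⟩
    have hn1 : N1 ≤ s.sum := (le_max_left _ _).trans hn
    have hn2 : N2 ≤ s.sum := (le_max_right _ _).trans hn
    -- a list with small first entries
    have key : ∀ s : List ℕ, s.length = k + 1 → (∀ x ∈ s, 1 ≤ x) → N1 ≤ s.sum → ¬ Blk (Nat.log 2 s.sum) s →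
        (mult s : ℝ) * 2 ^ path s ≤ (s.sum : ℝ) ^ C1 *
          (2 : ℝ) ^ ((s.sum : ℝ) ^ 2 / 4 + (7 - ((k + 1 : ℕ) : ℝ)) / 2 * s.sum) := by
      intro s hs hp hn hb
      match s, hs, hp, hn, hb with
      | [], hs, _, _, _ => simp at hs
      | [x], hs, _, _, _ => simp at hs; omega
      | x :: y :: l, hs, hp, hn, hb =>
        have hx : x ≤ Nat.log 2 (x :: y :: l).sum := by
          by_contra hcon
          exact hb ⟨x, y, l, rfl, Or.inl (not_le.1 hcon)⟩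
        have hy : y ≤ Nat.log 2 (x :: y :: l).sum := by
          by_contra hcon
          exact hb ⟨x, y, l, rfl, Or.inr (not_le.1 hcon)⟩
        exact h1 x y l hs hp hn hx hy
    by_cases hb : Blk (Nat.log 2 s.sum) s
    · by_cases hb' : Blk (Nat.log 2 s.sum) s.reverse
      · refine (h2 s hs hp hn2 hb hb').trans ?_
        have hpos : 1 ≤ s.sum := by
          rcases s with _ | ⟨x, l⟩
          · simp at hs
          · have := hp x (by simp)
            rw [List.sum_cons]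
            omega
        have : (1 : ℝ) ≤ (s.sum : ℝ) ^ C1 := one_le_pow₀ (by exact_mod_cast hpos)
        exact le_mul_of_one_le_left (by positivity) this
      · have h := key s.reverse (by rw [List.length_reverse, hs])
          (fun x hx => hp x (List.mem_reverse.1 hx)) (by rw [List.sum_reverse]; exact hn1)
          (by rw [List.sum_reverse]; exact hb')
        rw [hmr, hpr, List.sum_reverse] at h
        exact h
    · exact key s hs hp hn1 hb

theorem upper (hM : S_MUL) (h5 : S_FIVE) (h6 : S_SIX) (h7 : S_SEV) (hR : S_REM) (hC : S_CNT) (hG : S_GRP)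
    (k : ℕ) (hk : 5 ≤ k) : ∃ C N : ℕ, ∀ n : ℕ, N ≤ n →
      (a k n : ℝ) ≤ (n : ℝ) ^ C * (2 : ℝ) ^ ((n : ℝ) ^ 2 / 4 + (7 - (k : ℝ)) / 2 * n) := by
  obtain ⟨C, N, h⟩ := bd_all hM h5 h6 h7 hR k hk
  refine ⟨2 * k + C, max N 2, fun n hn => ?_⟩
  have hnN : N ≤ n := (le_max_left _ _).trans hn
  have hn2 : 2 ≤ n := (le_max_right _ _).trans hn
  have hnr : (2 : ℝ) ≤ n := by exact_mod_cast hn2
  have h1 : (a k n : ℝ) ≤
      ((∑ g ∈ (univ : Finset (Fin n → Fin k)).filter Function.Surjective, 2 ^ wt g : ℕ) : ℝ) := by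
    exact_mod_cast hC k n
  have h2 := hG k n ((n : ℝ) ^ C * (2 : ℝ) ^ ((n : ℝ) ^ 2 / 4 + (7 - (k : ℝ)) / 2 * n)) (by positivity)
    (fun s hs hp hsum => by
      have := h s hs hp (by rw [hsum]; exact hnN)
      rw [hsum] at this
      exact this)
  refine (h1.trans h2).trans ?_
  rw [← mul_assoc, pow_add]
  refine mul_le_mul_of_nonneg_right ?_ (by positivity)
  refine mul_le_mul_of_nonneg_right ?_ (by positivity)
  rw [pow_mul]
  exact pow_le_pow_left₀ (by positivity) (by nlinarith) k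

theorem lower (hT : S_LCT) (hL : S_LNM) (k : ℕ) (hk : 5 ≤ k) : ∃ C N : ℕ, ∀ n : ℕ, N ≤ n →
    (2 : ℝ) ^ ((n : ℝ) ^ 2 / 4 + (7 - (k : ℝ)) / 2 * n) ≤ (n : ℝ) ^ C * (a k n : ℝ) := by
  obtain ⟨C, N, h⟩ := hL k hk
  refine ⟨C, max N (k + 4), fun n hn => (h n ((le_max_left _ _).trans hn)).trans ?_⟩
  have hnk : k + 4 ≤ n := (le_max_right _ _).trans hn
  refine mul_le_mul_of_nonneg_left ?_ (by positivity)
  obtain ⟨w, hw⟩ : ∃ w, w = n - (k - 2) := ⟨_, rfl⟩
  have h1 := hT k n (w / 2) ((w - w / 2) / 2) hk (by omega) (by omega) (by omega) (by omega)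
  rw [← hw] at h1 ⊢
  exact_mod_cast h1

/-- The asymptotic formula from the two bounds. -/
theorem main (k : ℕ) (hU : ∃ C N : ℕ, ∀ n : ℕ, N ≤ n →
      (a k n : ℝ) ≤ (n : ℝ) ^ C * (2 : ℝ) ^ ((n : ℝ) ^ 2 / 4 + (7 - (k : ℝ)) / 2 * n))
    (hL : ∃ C N : ℕ, ∀ n : ℕ, N ≤ n →
      (2 : ℝ) ^ ((n : ℝ) ^ 2 / 4 + (7 - (k : ℝ)) / 2 * n) ≤ (n : ℝ) ^ C * (a k n : ℝ)) :
    ∃ (C : ℝ) (n₀ : ℕ), ∀ n : ℕ, n₀ ≤ n →
      |Real.logb 2 (a k n) - ((n : ℝ) ^ 2 / 4 + (1 - ((k : ℝ) - 5) / 2) * n)| ≤ C * Real.log n := by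
  obtain ⟨C1, N1, h1⟩ := hU
  obtain ⟨C2, N2, h2⟩ := hL
  refine ⟨((C1 : ℝ) + C2) / Real.log 2, max (max N1 N2) 2, fun n hn => ?_⟩
  have hn1 : N1 ≤ n := (le_max_left _ _).trans ((le_max_left _ _).trans hn)
  have hn2 : N2 ≤ n := (le_max_right _ _).trans ((le_max_left _ _).trans hn)
  have hn3 : 2 ≤ n := (le_max_right _ _).trans hn
  have hnr : (2 : ℝ) ≤ n := by exact_mod_cast hn3
  have hn0 : (0 : ℝ) < n := by linarith
  have hl2 : 0 < Real.log 2 := Real.log_pos (by norm_num)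
  have hln : 0 ≤ Real.log n := Real.log_nonneg (by linarith)
  have e1 := h1 n hn1
  have e2 := h2 n hn2
  have hexp : ((n : ℝ) ^ 2 / 4 + (1 - ((k : ℝ) - 5) / 2) * n) = (n : ℝ) ^ 2 / 4 + (7 - (k : ℝ)) / 2 * n := by ring
  rw [hexp]
  obtain ⟨e, he⟩ : ∃ e : ℝ, e = (n : ℝ) ^ 2 / 4 + (7 - (k : ℝ)) / 2 * n := ⟨_, rfl⟩
  rw [← he] at e1 e2 ⊢
  have hpe : (0 : ℝ) < (2 : ℝ) ^ e := Real.rpow_pos_of_pos (by norm_num) e
  have ha : (0 : ℝ) < (a k n : ℝ) := by
    by_contra hcon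
    have h0 : (a k n : ℝ) ≤ 0 := not_lt.1 hcon
    have : (n : ℝ) ^ C2 * (a k n : ℝ) ≤ 0 := mul_nonpos_of_nonneg_of_nonpos (by positivity) h0
    linarith
  have f1 : Real.logb 2 (a k n) ≤ C1 * Real.logb 2 n + e := by
    have := Real.logb_le_logb_of_le (b := 2) (by norm_num) ha e1
    rw [Real.logb_mul (by positivity) hpe.ne', Real.logb_pow, Real.logb_rpow (by norm_num) (by norm_num)] at this
    exact this
  have f2 : e ≤ C2 * Real.logb 2 n + Real.logb 2 (a k n) := by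
    have := Real.logb_le_logb_of_le (b := 2) (by norm_num) hpe e2
    rw [Real.logb_mul (by positivity) ha.ne', Real.logb_pow, Real.logb_rpow (by norm_num) (by norm_num)] at this
    exact this
  have hlb : Real.logb 2 n = Real.log n / Real.log 2 := rfl
  have g0 : 0 ≤ Real.logb 2 n := by rw [hlb]; positivity
  have g1 : ((C1 : ℝ) + C2) / Real.log 2 * Real.log n = (C1 + C2) * Real.logb 2 n := by
    rw [hlb]; ring
  rw [g1, abs_le]
  have c1 : (0 : ℝ) ≤ C1 * Real.logb 2 n := by positivity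
  have c2 : (0 : ℝ) ≤ C2 * Real.logb 2 n := by positivity
  constructor
  · linarith
  · linarith

end Pool.Agent.P8H99.GO
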